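import Mathlib
import Pool.Agent.MP_b7753f_al.Main

/-!
# A counterexample to Etingof's question on induced `p'`-symmetries

For `p = 3` and `G = (ℤ/3)²` there is an indecomposable representation `V` of dimension eight
such that the full tensor subcategory of the semisimplification of `rep G` generated by `V̄` is
equivalent, as a `k`-linear symmetric monoidal category, to `rep D₅`, where `D₅` is the dihedral
group of order ten.  The prime `5` divides its order and exceeds `p = 3`.
-/

open CategoryTheory

universe u

theorem Pool.Agent.Results.MP_b7753f_al.DihedralFive.result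
    (k : Type u) [Field k] [IsAlgClosed k] [CharP k 3] :
    ∃ V : FDRep k (Multiplicative (ZMod 3 × ZMod 3)),
      Module.finrank k V = 8 ∧ Indecomposable V ∧
      ∃ F : FDRep k (DihedralGroup 5) ⥤ (Pool.Agent.MP_b7753f_al.gen V).FullSubcategory,
        F.IsEquivalence ∧ F.Additive ∧ F.Linear k ∧ Nonempty F.Braided :=
  Pool.Agent.MP_b7753f_al.main k
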